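import Pool.Agent.Run7.h43.TF.Final

/-!
# The conjecture D for products of two varieties is the nondegeneracy of one form

Let `k` be a field (algebraically closed in the applications), of any characteristic, and `W` a Weil
cohomology theory, with **any** coefficient field `K` of characteristic zero, on a class of smooth
proper varieties over `k` closed under products. Let `𝒳` be a set of varieties in the class such that
the conjecture D holds for `X × X'` for all `X`, `X'` in `𝒳`. Only products of **two** members of `𝒳`
occur in this hypothesis. For **every** variety `Y` in the class let `A(Y) ⊆ H(Y)` be the subspace
generated by `𝒳`: the sum of the images of all operators `H(X) → H(Y)` given by algebraic cycles on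
`X × Y`, of all codimensions, for all `X ∈ 𝒳`; and let `M(Y) = A(Y) ∩ A(Y)^⊥` be the radical of the
cup product form on `A(Y)`.

**Theorem.**
* For every `Y`, the conjecture D holds for `X × Y` for all `X ∈ 𝒳` **if and only if** the cup product
  form is nondegenerate on `A(Y)`, i.e. `M(Y) = 0`.
* For every `X ∈ 𝒳` and every `Y`, a `K`-linear combination of classes of algebraic cycles on `X × Y` is
  numerically equivalent to zero **if and only if** all values of the operator `H(X) → H(Y)` lie in
  `M(Y)`. The values of all algebraic classes are orthogonal to `M(Y)`, and `M(Y)` is the smallest
  subspace with these two properties (so it is generated by the values of the numerically trivial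
  classes).
* `Y ↦ M(Y)` is functorial for all algebraic correspondences (of all degrees, between all varieties of
  the class), for pull-backs, push-forwards and cup products with algebraic classes, and stable
  under all symmetries of `W` (such as the action of a Galois group). `M(Y)` is graded, orthogonal to
  all algebraic classes, and totally isotropic.

So without the conjecture D numerical equivalence on all `X × Y`, `X ∈ 𝒳`, is the vanishing of the
induced operators `H(X) → M(Y)^⊥ / M(Y)`, for a two-step filtration `0 ⊆ M(Y) ⊆ M(Y)^⊥ ⊆ H(Y)` which
depends on `Y` alone.

Example. Let `𝒳` be the set of all curves, over a field of characteristic `p > 0`. The conjecture D is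
known for the surfaces `C × C'`. It is not known for `C × Y`, already for the products `Y` of three
curves, or for abelian threefolds `Y`. The theorem says that it holds, for a variety `Y` of any
dimension and all curves `C`, if and only if the cup product form is nondegenerate on the subspace
generated by curves, in degree `2 i - 1` the image of the Tate module of the largest abelian variety
which is parametrised by algebraic cycles on `Y`. (In characteristic zero the form is nondegenerate by
the theory of Hodge; in characteristic `p` this is not known if `dim Y ≥ 3`, and there is a
Galois invariant totally isotropic subspace which decides which cycles on the products `C × Y` with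
all curves `C` are numerically trivial.) Consequently, if the transcendental cohomology `T(Y)` has no
nonzero graded totally isotropic subspace which is stable under the Galois group and the algebraic
correspondences (for instance if `T(Y)` is irreducible, as for general odd dimensional complete
intersections), and D holds for `Y`, then D holds for `C × Y` for **all** curves `C`, about the
correspondences of which no assumption is made.

The proof. If `γ` is any class on `X × Y` and `δ` a numerically trivial class on `X' × Y`, then the
composition of `δ` with the transpose of `γ` is a numerically trivial class on `X' × X`, hence zero:
the values of `γ` and `δ` are orthogonal. Conversely a class `γ` with all values in the radical is a sum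
of exterior products of classes on `X` and classes in the radical by the Künneth formula, so that its
intersection numbers with algebraic classes vanish. That D for all `X × Y` implies `M(Y) = 0` is
the hard part. By D for `X × X` and the trace formula the `K`-algebra of the algebraic correspondences
from `X` to itself, of all degrees, is semisimple. Hence for every algebraic operator
`c : H(X) → H(Y)` there is an algebraic operator `d : H(Y) → H(X)` such that `c - c d c` is numerically
trivial. If `y` in `M(Y)` is a sum of `n` values of algebraic operators and `c x` is the first one, then
`d y = 0`, and `y - (c - c d c) x` is a sum of `n - 1` values, the operators being multiplied by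
`1 - c d`.
-/

universe u v

namespace Pool.Agent.Results.MP_5f0950_ag.NullPart

open Pool.Agent.H914 Pool.Agent.H914.VarClass Pool.Agent.R908 Run7.h43.TF

/-- **The conjecture D for products of two varieties is the nondegeneracy of one form.** -/
theorem result {k : Type u} [Field k] {𝒱 : VarClass k} {ops : CycleOps 𝒱}
    (W : WeilCohomology.{u, v} ops) (𝒳 : Set 𝒱.Obj) (h𝒳 : ∀ X ∈ 𝒳, DTimes W 𝒳 X) :
    (∀ Y, DTimes W 𝒳 Y ↔ radical W 𝒳 Y = ⊥) ∧ DecidesFor W 𝒳 (radical W 𝒳) ∧
      IsNullFamily W (radical W 𝒳) ∧ IsSmallest W 𝒳 (radical W 𝒳) :=
  nullPart W 𝒳 h𝒳

end Pool.Agent.Results.MP_5f0950_ag.NullPart
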