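import Pool.Agent.Run7.h43.OT.Tor

set_option autoImplicit false

/-!
# One de Rham-Betti class of codimension two decides the period torsors of all motives in the tensor
# category of an abelian variety

Let `A` be an abelian variety over `ℚ̄` and let `M` be an André motive over `ℚ̄` in the tensor
category generated by `h^1(A)` and the Tate motives, with the matrix `P` of periods. Let
`G ⊆ GL(H_B(M))` be an algebraic group over `ℚ` such that `P` is a point of a torsor of `G`
defined over `ℚ̄` (`IsPeriodGroup`; the group `G` is not assumed to be reductive or connected). By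
theorems of Deligne and André the motivic Galois group of `M` is its Mumford-Tate group `MT(M)`,
and `MT(M)` is such a group. The smallest such group is the de Rham-Betti group `G_dRB(M)` (`G` is the
stabilizer of a line in a sum of tensor spaces, and this line is a de Rham-Betti object, because `P` is
a point of a torsor of `G`). So `Ω_M^{dRB} = Ω_M^{And}` says that every period group `G` contains
`MT(M)`. Nothing is said about `Z_M` and `Ω_M`, for which groups over `ℚ̄` have to be considered.

Let `𝔤` be the Lie algebra of the endomorphisms of `H_1(A, ℚ)` which annihilate all classes that are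
Hodge classes and de Rham-Betti classes (`InLie`; by the theorem of Deligne it is the Lie algebra of
the Hodge group of `A`), and let `ω` be the polarization. For a set `L` of endomorphisms the Casimir
form of `L` (`IsCasimir`) is `c (u, v, x, y) = ω (T x, y)`, where `T ∈ L` is given by
`tr (T Y) = ω (Y u, v)` for all `Y ∈ L`; it is an element of `H^1(A) ^ {⊗ 4} (2)`, a direct
summand of a sum of copies of `H^4(A ^ 4)(2)`.

**Theorem.**

1. (One motive.) For every motive `M` and every period group `G` of `M` let `c_{M,G}` be the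
   Casimir form of the Lie algebra `𝔮_{M,G}` of all `X ∈ 𝔤` which act on `M`, up to a multiple of
   the weight operator, by elements of the Lie algebra of `G` (`InPeriodLie`). It exists and is unique,
   it is a de Rham-Betti class, it is annihilated by the centre of `𝔤`, and **`G` contains the derived
   group of `MT(M)` (`ContainsDerived`) if and only if `c_{M,G}` is a Hodge class**. If `G` contains
   `MT(M)`, then `c_{M,G}` is a Hodge class, and the converse holds if the centre of `𝔤` is rigid (for
   example zero: no factors of type IV) or acts trivially on `M` (for example if `M` is the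
   transcendental part of `H²` of a K3 surface or of a hyperkähler variety, and `A` is the Kuga-Satake
   variety): then **`G` contains `MT(M)` if and only if `c_{M,G}` is a Hodge class**.
2. (All motives.) Let `c` be the Casimir form of the Lie algebra of the endomorphisms which
   annihilate all de Rham-Betti classes. It exists, is unique and is a de Rham-Betti class. **The
   single class `c` is a Hodge class if and only if for all motives `M` in the tensor category every
   period group of `M` contains the derived group of `MT(M)`.** If the centre of `𝔤` is rigid, then **`c`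
   is a Hodge class if and only if every period group of every such `M` contains `MT(M)`**, that is,
   `Ω_M^{dRB} = Ω_M^{And}` for all motives `M` in the tensor category generated by `h^1(A)` and the
   Tate motives.

So for these motives the part `Ω_M^{dRB} = Ω_M^{And}` of the conjecture, a statement about the tensor
spaces of all degrees and about groups which need not be determined by their invariants (only the
reductive ones are), is a statement about one class of codimension two on `A ^ 4`, and for a single
motive `M`, of arbitrary weight and contained in tensor spaces of `h^1(A)` of arbitrary degree, also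
about one class of codimension two on `A ^ 4`.

Nothing is assumed about periods: `AbVar` is the description of an abelian variety over `ℚ̄` by theta
functions (see `Pool/Agent/Y102/AVDefs.lean`, where it is explained why every abelian variety has it),
and the transcendence theorems which are used, the theorem of Schneider and Lang and the
transcendence of `π`, are proved in this repository.

**The centre** (as in `CentreOfPeriodTorsors`). The centre of `𝔤` is *rigid* if for every element `X` of
the centre which generates it relative to the derived algebra (`Generates`), all relations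
`∑ x i = 0` between eigenvalues of `X` imply the relations `∑ y i = 0` for the eigenvalues of all the
other elements `Y` of the centre, for the same eigenvectors.

## Motives

As `h^1(A)` is dual to `h^1(A)(1)`, the motive `M` is a direct factor of a sum of motives
`h^1(A) ^ {⊗ r i} (w i)`. Its Betti realization is a space of families of multilinear forms with
rational values, in `r i` variables in `H_1(A, ℚ)`, with a basis `B`. It is the image of a motivated
projector, so it is stable under `𝔤` and under the weights. The de Rham realization has a basis which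
consists of combinations of products of elements of `H^1_dR(A / ℚ̄)` with algebraic coefficients. The
matrix `P` of the periods expresses it in terms of the basis `(2 π i) ^ (w i) B` of the Betti
realization (`IsMotive`).

## Proof

By the theorem of Schneider and Lang `𝔮 = 𝔮_{M,G}` acts semisimply on `H_1(A, ℚ)`, with the same
commutant as `𝔤` (starting library, `Pool.Agent.N208.AM.qM_full`), and it contains the rational
components of the logarithmic derivatives of the periods of `A`, because these components act on `M` by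
the components of the logarithmic derivatives of `P`. A form on `H_1(A, ℚ)` is a de Rham-Betti class if
and only if it is annihilated by all these components; so the Casimir form of `𝔮` is a de Rham-Betti
class on `A`, although `𝔮` is defined by `M`. If it is a Hodge class, then `𝔤` annihilates it, so that
`𝔤` normalizes `𝔮`, and `𝔤` is the sum of `𝔮` and of its centre; conversely, if `𝔮` contains `[𝔤, 𝔤]`, then
`𝔤` normalizes `𝔮`. If `G` contains the Deligne torus, then `𝔮` contains the rational components of the
complex structure of `H_1(A, ℝ)`; they annihilate the Casimir form of `𝔮`, and so it is a Hodge class.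
If `c` is a Hodge class, then all de Rham-Betti classes annihilated by the centre are Hodge classes
(starting library, `Y102`), in particular all the classes `c_{M,G}`. For the converse we apply the hypothesis to `M = h^1(A) ^ {⊗ 4} (2)` and to the stabilizer `G` of the vector
`c` of `H_B(M)`, which is a period group, because `c` is a de Rham-Betti class.

The same class `c` was considered in `MP_bf54cf_ag.OneClassDecides`, for de Rham-Betti classes.
-/

open Module Matrix Pool.Agent.Y102 Pool.Agent.W516.DR Pool.Agent.H204R3.GP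

noncomputable section

namespace Pool.Agent.Run7.h43.Kept.OneClassForAllMotives

variable {g : ℕ} (A : AbVar g)

/-! ### De Rham-Betti classes and Hodge classes -/

/-- The multilinear forms in `2m` variables in the rational homology. -/
abbrev Form (m : ℕ) : Type := MultilinearMap ℚ (fun _ : Fin m × Fin 2 => A.H1) ℚ

/-- `φ` is a de Rham-Betti class in `H^1(A) ^ {⊗ 2m} (m)`. -/
def IsDRB {m : ℕ} (φ : Form A m) : Prop :=
  IsDeRhamBettiForm QBar A.dR (2 * Real.pi * Complex.I) m φ

/-- `φ` is a Hodge class in `H^1(A) ^ {⊗ 2m} (m)`. -/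
def IsHodge {m : ℕ} (φ : Form A m) : Prop := IsHodgeTensor (A.per : A.H1 →+ (Fin g → ℂ)) φ

/-- The endomorphism `X` annihilates the form `φ` (as a derivation). -/
def Annihilates {m : ℕ} (X : Module.End ℚ A.H1) (φ : Form A m) : Prop :=
  ∀ v, ∑ k, φ (Function.update v k (X (v k))) = 0

/-! ### The Lie algebra of the Hodge group and its centre -/

/-- `X` is in the Lie algebra `𝔤`: it annihilates all classes that are Hodge classes and
de Rham-Betti classes. -/
def InLie (X : Module.End ℚ A.H1) : Prop :=
  ∀ (m : ℕ) (φ : Form A m), IsHodge A φ → IsDRB A φ → Annihilates A X φ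

/-- `X` annihilates all de Rham-Betti classes. -/
def InDRBLie (X : Module.End ℚ A.H1) : Prop := ∀ (m : ℕ) (φ : Form A m), IsDRB A φ → Annihilates A X φ

/-- `X` is an element of the centre of `𝔤`. -/
def InCentre (X : Module.End ℚ A.H1) : Prop := InLie A X ∧ ∀ Y, InLie A Y → Y * X = X * Y

/-- The class `φ` is annihilated by the centre of `𝔤`. -/
def KilledByCentre {m : ℕ} (φ : Form A m) : Prop := ∀ X, InCentre A X → Annihilates A X φ

/-- The matrix of the extension of an endomorphism of `H_1(A, ℚ)` to `H_1(A, ℂ)`, for the basis of the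
lattice. -/
def toC (X : Module.End ℚ A.H1) : Matrix (Fin (2 * g)) (Fin (2 * g)) ℂ :=
  Matrix.of fun i j => (X (Pi.single j 1) i : ℂ)

/-- The endomorphisms which commute with `X` and with the derived algebra of `𝔤` commute with the
centre of `𝔤`. -/
def Generates (X : Module.End ℚ A.H1) : Prop :=
  ∀ T : Module.End ℚ A.H1,
    (∀ Y, InLie A Y → ∀ Z, InLie A Z → T * (Y * Z - Z * Y) = (Y * Z - Z * Y) * T) →
    T * X = X * T → ∀ Z, InCentre A Z → T * Z = Z * T

/-- All relations `∑ i, x i = 0` between eigenvalues of `X` imply the relation `∑ i, y i = 0` between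
the eigenvalues of `Y` for the same eigenvectors. -/
def RelationsOf (X Y : Module.End ℚ A.H1) : Prop :=
  ∀ (r : ℕ) (v : Fin r → Fin (2 * g) → ℂ) (x y : Fin r → ℂ),
    (∀ i, v i ≠ 0 ∧ toC A X *ᵥ v i = x i • v i ∧ toC A Y *ᵥ v i = y i • v i) →
      ∑ i, x i = 0 → ∑ i, y i = 0

/-- The centre of `𝔤` is rigid: the relations between the eigenvalues of a generating element of the
centre hold for all elements of the centre. -/
def RigidCentre : Prop :=
  ∀ X, InCentre A X → Generates A X → ∀ Y, InCentre A Y → RelationsOf A X Y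

/-- `c` is the Casimir form of the set `L` of endomorphisms: we have `c (u, v, x, y) = ω (T x, y)` for
the element `T` of `L` with `tr (T Y) = ω (Y u, v)` for all `Y ∈ L`. -/
def IsCasimir (L : Module.End ℚ A.H1 → Prop) (c : Form A 2) : Prop :=
  ∀ v, ∃ T, L T ∧
    (∀ Y, L Y → LinearMap.trace ℚ A.H1 (T * Y) = A.om (Y (v (0, 0))) (v (0, 1))) ∧
    c v = A.om (T (v (1, 0))) (v (1, 1))

/-! ### Motives -/

variable {s n : ℕ} (r : Fin s → ℕ) (w : Fin s → ℤ)

/-- The Betti realization of the sum of the motives `h^1(A) ^ {⊗ r i} (w i)`: families of multilinear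
forms in `r i` variables in the rational homology. -/
abbrev Tensors : Type := ∀ i : Fin s, MultilinearMap ℚ (fun _ : Fin (r i) => A.H1) ℚ

variable {A r}

/-- `M` is the matrix of the action of the endomorphism `X` of the rational homology of `A` (as a
derivation) on the space of tensors with the basis `B`. -/
def IsLieMatrix (B : Fin n → Tensors A r) (X : Module.End ℚ A.H1)
    (M : Matrix (Fin n) (Fin n) ℚ) : Prop :=
  ∀ a i v, ∑ k, B a i (Function.update v k (X (v k))) = ∑ b, M b a * B b i v

/-- `W` is the matrix of the weight operator on the space of tensors with the basis `B`: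
multiplication with `k` on the part of weight `k`. -/
def IsWeightMatrix (B : Fin n → Tensors A r) (W : Matrix (Fin n) (Fin n) ℚ) : Prop :=
  ∀ a i v, ((r i : ℚ) - 2 * w i) * B a i v = ∑ b, W b a * B b i v

/-- The subspace with the basis `B` is the Betti realization of a direct factor `M` of the sum of the
motives `h^1(A) ^ {⊗ r i} (w i)`, and `P` is the matrix of the periods of `M` for the basis `B` and for
some basis of the de Rham realization of `M` over `ℚ̄`. -/
structure IsMotive (B : Fin n → Tensors A r) (P : Matrix (Fin n) (Fin n) ℂ) : Prop where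
  /-- `B` is a basis of a subspace -/
  basis : LinearIndependent ℚ B
  /-- the subspace is stable under `𝔤` -/
  lie : ∀ X, InLie A X → ∃ M : Matrix (Fin n) (Fin n) ℚ, IsLieMatrix B X M
  /-- the subspace is stable under the weights -/
  weight : ∃ W : Matrix (Fin n) (Fin n) ℚ, IsWeightMatrix w B W
  /-- the de Rham realization has a basis of elements with algebraic coefficients in terms of the
  tensor products of the elements of the basis of `H^1_dR(A / ℚ̄)` -/
  deRham : ∃ c : Fin n → ∀ i : Fin s, (Fin (r i) → Fin g ⊕ Fin g) → ℂ,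
    (∀ a i J, IsAlgebraic ℚ (c a i J)) ∧ ∀ a i (v : Fin (r i) → A.H1),
      ∑ J, c a i J * ∏ k, A.dR (J k) (v k) =
        (2 * Real.pi * Complex.I) ^ (w i) * ∑ b, P b a * (B b i v : ℂ)
  /-- the matrix of the periods is invertible -/
  det : P.det ≠ 0

/-! ### Period groups and the Mumford-Tate group -/

/-- A subgroup of `GL_R(ℂ)` defined by polynomials with rational coefficients. -/
def IsAlgebraicSubgroup {R : Type} [Fintype R] [DecidableEq R] (G : Subgroup (GL R ℂ)) : Prop :=
  ∃ I : Set (MvPolynomial (R × R) ℚ), ∀ x : GL R ℂ, x ∈ G ↔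
    ∀ p ∈ I, MvPolynomial.aeval (fun b : R × R => (x : Matrix R R ℂ) b.1 b.2) p = 0

/-- The torsor `G · T⁻¹` of `G`: the matrices `F` such that `F T` is an element of `G`. It is
defined over `ℚ̄` if `T` is a matrix with algebraic entries. -/
def torsor (G : Subgroup (GL (Fin n) ℂ)) (T : Matrix (Fin n) (Fin n) ℂ) :
    Set (Matrix (Fin n) (Fin n) ℂ) :=
  {F | ∃ x ∈ G, (x : Matrix (Fin n) (Fin n) ℂ) = F * T}

/-- `B` and `P` describe a motive `M`, and `G` is an algebraic group over `ℚ` with a torsor over `ℚ̄`
which contains `P`. -/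
structure IsPeriodGroup (B : Fin n → Tensors A r) (P : Matrix (Fin n) (Fin n) ℂ)
    (G : Subgroup (GL (Fin n) ℂ)) : Prop where
  motive : IsMotive w B P
  algebraic : IsAlgebraicSubgroup G
  point : ∃ T : Matrix (Fin n) (Fin n) ℂ, (∀ i j, IsAlgebraic ℚ (T i j)) ∧ P ∈ torsor G T

/-- The rational matrix `M` is in the Lie algebra of `G`. -/
def InLieOf (G : Subgroup (GL (Fin n) ℂ)) (M : Matrix (Fin n) (Fin n) ℚ) : Prop :=
  ∀ t : ℂ, ∃ x ∈ G, (x : Matrix (Fin n) (Fin n) ℂ) = NormedSpace.exp (t • M.map fun q => (q : ℂ))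

/-- `G` contains the derived group of the Mumford-Tate group: for all `X`, `Y` in `𝔤` the action of
`[X, Y]` on `M` is in the Lie algebra of `G`. -/
def ContainsDerived (B : Fin n → Tensors A r) (G : Subgroup (GL (Fin n) ℂ)) : Prop :=
  ∀ X, InLie A X → ∀ Y, InLie A Y → ∀ M : Matrix (Fin n) (Fin n) ℚ,
    IsLieMatrix B (X * Y - Y * X) M → InLieOf G M

/-- `X` is in the Lie algebra `𝔮_{M,G}`: an element of `𝔤` which acts on `M`, up to a multiple of the
weight operator, by an element of the Lie algebra of `G`. -/
def InPeriodLie (B : Fin n → Tensors A r) (G : Subgroup (GL (Fin n) ℂ))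
    (X : Module.End ℚ A.H1) : Prop :=
  InLie A X ∧ ∃ M W : Matrix (Fin n) (Fin n) ℚ, IsLieMatrix B X M ∧ IsWeightMatrix w B W ∧
    ∃ q : ℚ, InLieOf G (M + q • W)

/-- The centre of `𝔤` acts trivially on `M`. -/
def CentreActsTrivially (B : Fin n → Tensors A r) : Prop :=
  ∀ X, InCentre A X → IsLieMatrix B X 0

variable (A) in
/-- The Hodge structure of `H^1(A)`: the complex number `z` acts on `H_1(A, ℝ) = ℂ ^ g` by
multiplication, and on `H^1(A, ℝ)` by the transposed map, here in the basis of `H^1(A, ℚ)` which is
dual to the basis of the lattice. -/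
def hodge (z : ℂ) : Matrix (Fin (2 * g)) (Fin (2 * g)) ℂ :=
  Matrix.of fun i j => ((A.lam.repr (z • A.lam i) j : ℝ) : ℂ)

/-- `R` is the matrix of the action of the complex number `z` on `M`, in the Hodge structure given by
those of `H^1(A)` and of the Tate motives (`z` acts on `ℚ(1)` by `(z z̄)⁻¹`). -/
def IsHodgeMatrix (B : Fin n → Tensors A r) (z : ℂ) (R : Matrix (Fin n) (Fin n) ℂ) : Prop :=
  ∀ a i (j : Fin (r i) → Fin (2 * g)),
    ∑ j' : Fin (r i) → Fin (2 * g), (∏ k, hodge A z (j k) (j' k)) *
        (B a i (fun k => Pi.single (j' k) 1) : ℂ) =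
      (z * (starRingEnd ℂ) z) ^ (w i) * ∑ b, R b a * (B b i (fun k => Pi.single (j k) 1) : ℂ)

/-- The Mumford-Tate group of `M`: the smallest algebraic group over `ℚ` which contains the image of
the Deligne torus. -/
def mumfordTate (B : Fin n → Tensors A r) : Subgroup (GL (Fin n) ℂ) :=
  sInf {G | IsAlgebraicSubgroup G ∧ ∀ z : ℂ, z ≠ 0 → ∃ x ∈ G,
    IsHodgeMatrix w B z (x : Matrix (Fin n) (Fin n) ℂ)}

/-! ### Translation to the library -/

variable {w} {B : Fin n → Tensors A r} {P : Matrix (Fin n) (Fin n) ℂ}
  {G : Subgroup (GL (Fin n) ℂ)}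

/-- The set of the matrices of the elements of the group. -/
abbrev matrices (G : Subgroup (GL (Fin n) ℂ)) : Set (Matrix (Fin n) (Fin n) ℂ) :=
  {M | ∃ x ∈ G, (x : Matrix (Fin n) (Fin n) ℂ) = M}

theorem rel_iff {X : Module.End ℚ A.H1} {M : Matrix (Fin n) (Fin n) ℚ} :
    N208.AM.Rel B X M ↔ IsLieMatrix B X M := by
  constructor
  · intro h a i v
    have h1 := congrArg (fun φ : MultilinearMap ℚ (fun _ : Fin (r i) => A.H1) ℚ => φ v) (h a i)
    simp only [N208.AM.dact_apply, _root_.sum_apply, _root_.smul_apply, smul_eq_mul] at h1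
    exact h1
  · intro h a i
    refine MultilinearMap.ext fun v => ?_
    rw [N208.AM.dact_apply, _root_.sum_apply, h a i v]
    rfl

theorem wrel_iff {W : Matrix (Fin n) (Fin n) ℚ} :
    N208.AM.WRel w B W ↔ IsWeightMatrix w B W := by
  constructor
  · intro h a i v
    have h1 := congrArg (fun φ : MultilinearMap ℚ (fun _ : Fin (r i) => A.H1) ℚ => φ v) (h a i)
    simp only [_root_.sum_apply, _root_.smul_apply, smul_eq_mul] at h1
    exact h1
  · intro h a i
    refine MultilinearMap.ext fun v => ?_
    rw [_root_.smul_apply, _root_.sum_apply, smul_eq_mul, h a i v]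
    rfl

theorem IsMotive.toMot (h : IsMotive w B P) : N208.AM.Mot w B P where
  li := h.basis
  st := fun X hX => by
    obtain ⟨M, hM⟩ := h.lie X hX
    exact ⟨M, rel_iff.2 hM⟩
  wt := by
    obtain ⟨W, hW⟩ := h.weight
    exact ⟨W, wrel_iff.2 hW⟩
  det := h.det
  dR := h.deRham

theorem IsMotive.ofMot (h : N208.AM.Mot w B P) : IsMotive w B P where
  basis := h.li
  lie := fun X hX => by
    obtain ⟨M, hM⟩ := h.st X hX
    exact ⟨M, rel_iff.1 hM⟩
  weight := by
    obtain ⟨W, hW⟩ := h.wt
    exact ⟨W, wrel_iff.1 hW⟩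
  det := h.det
  deRham := h.dR

theorem IsPeriodGroup.toPt (h : IsPeriodGroup w B P G) : N208.AM.PtM P (matrices G) := by
  obtain ⟨T, hT, x, hx, hxT⟩ := h.point
  have hdet : T.det ≠ 0 := by
    intro h0
    have h1 : (x : Matrix (Fin n) (Fin n) ℂ).det = 0 := by
      rw [hxT, Matrix.det_mul, h0, mul_zero]
    exact (Matrix.GeneralLinearGroup.det x).ne_zero h1
  obtain ⟨T', h1, h2⟩ := Pool.Agent.R917.alg_inv hT hdet
  exact ⟨Pool.Agent.R917.algGrp_of h.algebraic, T, T', h1, h2, x, hx, hxT⟩

theorem mem_qM (h : IsPeriodGroup w B P G) {Wt : Matrix (Fin n) (Fin n) ℚ}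
    (hW : N208.AM.WRel w B Wt) {X : Module.End ℚ A.H1} :
    X ∈ N208.AM.qM B Wt (matrices G) ↔ InPeriodLie w B G X := by
  have hgrp := h.toPt.grp
  have hL : ∀ M : Matrix (Fin n) (Fin n) ℚ, M ∈ N208.AM.LQ (matrices G) ↔ InLieOf G M := by
    intro M
    constructor
    · intro h1 t
      exact Pool.Agent.R917.exp_mem hgrp fun d => (h1 d).smul t
    · intro h1 d
      exact Run7.h43.OT.stab_of_exp hgrp.mul h1 d
  constructor
  · rintro ⟨h1, M, hM, q, hq⟩
    exact ⟨h1, M, Wt, rel_iff.1 hM, wrel_iff.1 hW, q, (hL _).1 hq⟩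
  · rintro ⟨h1, M, W, hM, hW', q, hq⟩
    refine ⟨h1, M, rel_iff.2 hM, q, ?_⟩
    have h2 : W = Wt := by
      ext b a
      refine congrFun (N208.AM.eq_of_comb h.motive.basis (x := fun b => W b a)
        (y := fun b => Wt b a) fun i => ?_) b
      exact ((wrel_iff.2 hW') a i).symm.trans (hW a i)
    rw [← h2]
    exact (hL _).2 hq

theorem casimir_of {L : Submodule ℚ (Module.End ℚ A.H1)} (hL : A.Full L)
    {p : Module.End ℚ A.H1 → Prop} (hp : ∀ X, X ∈ L ↔ p X) :
    IsCasimir A p (Run7.h43.OT.casq hL) := by
  intro v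
  refine ⟨Pool.Agent.W516.KC2.EE L hL.trace A.om (v (0, 0)) (v (0, 1)),
    (hp _).1 (Pool.Agent.W516.KC2.EE_mem L hL.trace A.om (v (0, 0)) (v (0, 1))),
    fun Y hY => Pool.Agent.W516.KC2.EE_trace L hL.trace A.om (v (0, 0)) (v (0, 1))
      ((hp Y).2 hY),
    Pool.Agent.W516.KC2.casimir_apply L hL.trace A.om v⟩

variable (A) in
theorem rigid_of (hz : RigidCentre A) : N208.CT.Rigid A := by
  intro X hX hg Y hY
  refine dom_of_matrix (hz X ⟨hX.1, hX.2⟩ (fun T hT hTX Z hZ => ?_) Y ⟨hY.1, hY.2⟩)
  exact hg T hT hTX Z ⟨hZ.1, hZ.2⟩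

theorem hrel_iff {z : ℂ} {R : Matrix (Fin n) (Fin n) ℂ} :
    N208.AM.HRel w B z R ↔ IsHodgeMatrix w B z R := by
  have hb : ∀ j : Fin (2 * g), A.bas j = Pi.single j 1 := fun j => by
    unfold AbVar.bas
    rw [Pi.basisFun_apply]
  unfold N208.AM.HRel IsHodgeMatrix
  simp only [hb]
  rfl

theorem casimir_iff {L : Submodule ℚ (Module.End ℚ A.H1)} (hL : A.Full L)
    {p : Module.End ℚ A.H1 → Prop} (hp : ∀ X, X ∈ L ↔ p X) (c' : Form A 2) :
    IsCasimir A p c' ↔ c' = Run7.h43.OT.casq hL := by
  constructor
  · intro h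
    refine MultilinearMap.ext fun v => ?_
    obtain ⟨T, h1, h2, h3⟩ := h v
    obtain ⟨T', h1', h2', h3'⟩ := casimir_of hL hp v
    have h4 : T = T' := Pool.Agent.W516.KC2.ext_trace L hL.trace ((hp _).2 h1) ((hp _).2 h1')
      fun Y hY => (h2 Y ((hp _).1 hY)).trans (h2' Y ((hp _).1 hY)).symm
    rw [h3, h3', h4]
  · rintro rfl
    exact casimir_of hL hp

/-- If the Mumford-Tate group is in the group, then so is the Deligne torus. -/
theorem torus_mem (h : IsMotive w B P) {G : Subgroup (GL (Fin n) ℂ)}
    (hG : mumfordTate w B ≤ G) {Wt : Matrix (Fin n) (Fin n) ℚ} (hW : N208.AM.WRel w B Wt)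
    {N : Matrix (Fin n) (Fin n) ℝ} (hN : N208.AM.RelR B AbVar.JJ N) (z : ℂ) (hz : z ≠ 0) :
    NormedSpace.exp (N208.AM.KK Wt N z) ∈ matrices G := by
  have h1 : IsUnit (NormedSpace.exp (N208.AM.KK Wt N z)) := Matrix.isUnit_exp _
  obtain ⟨x, hx⟩ := h1
  refine ⟨x, hG (Subgroup.mem_sInf.2 fun G' hG' => ?_), hx⟩
  obtain ⟨y, hy, hy'⟩ := hG'.2 z hz
  have h2 : x = y := by
    refine Units.ext ?_
    rw [hx]
    exact Run7.h43.OT.hrel_uniq h.basis hz (N208.AM.hrel_exp hW hN hz) (hrel_iff.2 hy')
  rw [h2]
  exact hy

/-- The class of a motive and of a period group. -/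
theorem one_motive (h : IsPeriodGroup w B P G) : ∃ c : Form A 2,
    (∀ c' : Form A 2, IsCasimir A (InPeriodLie w B G) c' ↔ c' = c) ∧ IsDRB A c ∧
    KilledByCentre A c ∧ (IsHodge A c ↔ ContainsDerived B G) ∧
    (mumfordTate w B ≤ G → IsHodge A c) ∧
    (CentreActsTrivially B ∨ RigidCentre A → (IsHodge A c ↔ mumfordTate w B ≤ G)) := by
  have hM := h.motive.toMot
  have hH := h.toPt
  obtain ⟨Wt, hW⟩ := hM.wt
  obtain ⟨N, hN, -⟩ := N208.AM.exists_J hM
  have hconv : mumfordTate w B ≤ G → IsHodge A (Run7.h43.OT.cMG hM hW hH) := fun hG =>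
    Run7.h43.OT.hodge_of_torus hM hW hH hN (torus_mem h.motive hG hW hN)
  refine ⟨Run7.h43.OT.cMG hM hW hH, casimir_iff _ fun X => mem_qM h hW,
    Run7.h43.OT.cMG_drb hM hW hH, fun X hX => Run7.h43.OT.cMG_killed hM hW hH hX, ⟨?_, ?_⟩,
    hconv, fun hz => ⟨fun hc => ?_, hconv⟩⟩
  · intro hc X hX Y hY M hXY t
    exact Run7.h43.OT.exp_bracket hM hW hH hc hX hY (rel_iff.2 hXY) t
  · intro hc
    exact Run7.h43.OT.cMG_hodge hM hW hH fun X hX Y hY M hXY t =>
      hc X hX Y hY M (rel_iff.1 hXY) t
  · refine sInf_le ⟨h.algebraic, fun u hu => ?_⟩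
    obtain ⟨⟨y, hy, hy'⟩, h4⟩ : NormedSpace.exp (N208.AM.KK Wt N u) ∈ matrices G ∧
        N208.AM.HRel w B u (NormedSpace.exp (N208.AM.KK Wt N u)) := by
      rcases hz with hz | hz
      · exact Run7.h43.OT.torus_nocentre hM hW hH (fun Z hZ => rel_iff.2 (hz Z hZ)) hc hN hu
      · exact Run7.h43.OT.torus_rigid hM hW hH (rigid_of A hz) hc hN hu
    refine ⟨y, hy, ?_⟩
    rw [hy']
    exact hrel_iff.1 h4

/-! ### All motives -/

/-- The tensor power of `h^1(A)` and the stabilizer of a nonzero de Rham-Betti class. -/
theorem periodGroup_T {c : Form A 2} (hc : IsDRB A c) (h0 : c ≠ 0) :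
    IsPeriodGroup (fun _ : Fin 1 => ((2 : ℕ) : ℤ)) (Run7.h43.OT.BT A (2 * 2))
      (Run7.h43.OT.PT A (2 * 2) ((2 : ℕ) : ℤ)) (Run7.h43.OT.stabG (Run7.h43.OT.cv A c)) where
  motive := IsMotive.ofMot (Run7.h43.OT.mot_T A (2 * 2) _)
  algebraic := Run7.h43.OT.stabG_alg _
  point := by
    obtain ⟨T, hT, x, hx, hxT⟩ := Run7.h43.OT.exists_pt hc (Run7.h43.OT.cv_ne_zero h0)
    exact ⟨T, hT, x, hx, hxT⟩

/-- If the stabilizer of the class contains the derived group, then the class is a Hodge class. -/
theorem hodge_of_derived {c : Form A 2} (hk : KilledByCentre A c)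
    (h : ContainsDerived (Run7.h43.OT.BT A (2 * 2))
      (Run7.h43.OT.stabG (Run7.h43.OT.cv A c))) : IsHodge A c := by
  have h1 : ∀ d ∈ der A.NA, H204R3.SP.Kills d c := by
    intro d hd
    induction hd using Submodule.span_induction with
    | mem d hd =>
      obtain ⟨X, hX, Y, hY, rfl⟩ := hd
      obtain ⟨M, hM⟩ := (Run7.h43.OT.mot_T A (2 * 2) ((2 : ℕ) : ℤ)).st _ (A.NA_bracket hX hY)
      refine Run7.h43.OT.kills_of_dact (Run7.h43.OT.kills_of_mulVec A hM
        (Run7.h43.OT.kill_of_exp fun t => ?_))
      obtain ⟨x, hx, hx'⟩ := h X hX Y hY M (rel_iff.1 hM) t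
      rw [← hx']
      exact hx
    | zero =>
      intro v
      refine Finset.sum_eq_zero fun k _ => ?_
      rw [LinearMap.zero_apply]
      exact c.map_coord_zero k (Function.update_self _ _ _)
    | add a b _ _ ha hb =>
      intro v
      have h3 := congrArg₂ (fun x y : ℚ => x + y) (ha v) (hb v)
      simp only [add_zero] at h3
      rw [← h3, ← Finset.sum_add_distrib]
      refine Finset.sum_congr rfl fun k _ => ?_
      rw [LinearMap.add_apply, MultilinearMap.map_update_add]
    | smul q a _ ha =>
      intro v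
      rw [← mul_zero q, ← ha v, Finset.mul_sum]
      refine Finset.sum_congr rfl fun k _ => ?_
      rw [LinearMap.smul_apply, MultilinearMap.map_update_smul, smul_eq_mul]
  refine hodge_of_kills _ A.isRationalStructure _ fun Z hZ => ?_
  have hZ' : Z ∈ A.NA := A.MA_le_NA hZ
  obtain ⟨C, hC, d, hd, h2, hcomm⟩ := (N208.AM.full_NA (A := A)).dec hZ'
  have h3 : H204R3.SP.Kills C c := hk C ⟨hC, fun Y hY => (hcomm Y hY).symm⟩
  intro v
  have h4 := congrArg₂ (fun x y : ℚ => x + y) (h3 v) (h1 d hd v)
  simp only [add_zero] at h4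
  rw [← h4, ← Finset.sum_add_distrib, h2]
  refine Finset.sum_congr rfl fun k _ => ?_
  rw [LinearMap.add_apply, MultilinearMap.map_update_add]

/-- If the stabilizer of the class contains the Mumford-Tate group, then the class is a Hodge
class. -/
theorem hodge_of_MT {c : Form A 2}
    (h : mumfordTate (fun _ : Fin 1 => ((2 : ℕ) : ℤ)) (Run7.h43.OT.BT A (2 * 2)) ≤
      Run7.h43.OT.stabG (Run7.h43.OT.cv A c)) : IsHodge A c := by
  have hM := Run7.h43.OT.mot_T A (2 * 2) ((2 : ℕ) : ℤ)
  obtain ⟨Wt, hW⟩ := hM.wt
  obtain ⟨N, hN, -⟩ := N208.AM.exists_J hM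
  refine Run7.h43.OT.hodge_of_fixed (l := 2) hW hN fun z hz => ?_
  obtain ⟨x, hx, hx'⟩ := torus_mem (IsMotive.ofMot hM) h hW hN z hz
  rw [← hx']
  exact hx

theorem hodge_zero : IsHodge A (0 : Form A 2) :=
  ⟨0, fun _ => by simp, fun _ _ _ => rfl⟩

/-- **One de Rham-Betti class of codimension two decides the period torsors of all motives in the
tensor category of an abelian variety.** -/
theorem result {g : ℕ} (A : AbVar g) :
    (∀ (s n : ℕ) (r : Fin s → ℕ) (w : Fin s → ℤ) (B : Fin n → Tensors A r)
      (P : Matrix (Fin n) (Fin n) ℂ) (G : Subgroup (GL (Fin n) ℂ)), IsPeriodGroup w B P G →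
        ∃ c : Form A 2,
          (∀ c' : Form A 2, IsCasimir A (InPeriodLie w B G) c' ↔ c' = c) ∧
          IsDRB A c ∧ KilledByCentre A c ∧
          (IsHodge A c ↔ ContainsDerived B G) ∧
          (mumfordTate w B ≤ G → IsHodge A c) ∧
          (CentreActsTrivially B ∨ RigidCentre A → (IsHodge A c ↔ mumfordTate w B ≤ G))) ∧
    ∃ c : Form A 2,
      (∀ c' : Form A 2, IsCasimir A (InDRBLie A) c' ↔ c' = c) ∧
      IsDRB A c ∧ KilledByCentre A c ∧
      (IsHodge A c ↔ ∀ (s n : ℕ) (r : Fin s → ℕ) (w : Fin s → ℤ) (B : Fin n → Tensors A r)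
        (P : Matrix (Fin n) (Fin n) ℂ) (G : Subgroup (GL (Fin n) ℂ)),
        IsPeriodGroup w B P G → ContainsDerived B G) ∧
      (RigidCentre A → (IsHodge A c ↔
        ∀ (s n : ℕ) (r : Fin s → ℕ) (w : Fin s → ℤ) (B : Fin n → Tensors A r)
        (P : Matrix (Fin n) (Fin n) ℂ) (G : Subgroup (GL (Fin n) ℂ)),
        IsPeriodGroup w B P G → mumfordTate w B ≤ G)) := by
  refine ⟨fun s n r w B P G h => one_motive h, A.cas, ?_, A.cas_drb, ?_, ⟨?_, ?_⟩,
    fun hz => ⟨?_, ?_⟩⟩
  · exact casimir_iff A.full_LA fun X => Iff.rfl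
  · exact fun X hX => A.cas_killed hX
  · intro hc s n r w B P G h
    obtain ⟨c', -, h1, h2, h3, -⟩ := one_motive h
    exact h3.1 (A.hodge_of_le (A.NA_le_of_cas hc) h1 h2)
  · intro h
    by_cases h0 : A.cas = 0
    · rw [h0]
      exact hodge_zero
    · exact hodge_of_derived (fun X hX => A.cas_killed hX)
        (h 1 _ _ _ _ _ _ (periodGroup_T A.cas_drb h0))
  · intro hc s n r w B P G h
    obtain ⟨c', -, h1, h2, -, -, h3⟩ := one_motive h
    exact (h3 (Or.inr hz)).1 (A.hodge_of_le (A.NA_le_of_cas hc) h1 h2)
  · intro h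
    by_cases h0 : A.cas = 0
    · rw [h0]
      exact hodge_zero
    · exact hodge_of_MT (h 1 _ _ _ _ _ _ (periodGroup_T A.cas_drb h0))

end Pool.Agent.Run7.h43.Kept.OneClassForAllMotives
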